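import Pool.Agent.Helper85.IA.St

/-!
# Project IA, part N, module KK1: joint mean of `kB` and `kC`
-/

set_option autoImplicit false

namespace Pool.Agent.Helper30.IA85

open Finset Pool.Agent.Helper93.IA Pool.Agent.Helper85.IA

variable {α β γ : Type} [Fintype α] [Fintype β] [Fintype γ] [DecidableEq α] [DecidableEq β]
  [DecidableEq γ]

private theorem pt (σ : α × β → Option γ) (a : α) (b : β) (c : γ) (a' : α) (b' : β) :
    us σ a' b c * us σ a b' c ≤
      (if a' = a then (if b' = b then (if σ (a, b) = some c then (1 : ℝ) else 0) else 0) else 0)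
      + (if a' = a then 0 else if b' = b then 0 else
          (if σ (a', b) = some c ∧ σ (a, b') = some c then (1 : ℝ) else 0)) := by
  unfold us
  by_cases h1 : Us σ a' b c
  · by_cases h2 : Us σ a b' c
    · rw [if_pos h1, if_pos h2]
      by_cases ha : a' = a
      · by_cases hb : b' = b
        · subst ha; subst hb
          rw [if_pos rfl, if_pos rfl, if_pos rfl, if_pos h1.1]
          norm_num
        · subst ha
          exact absurd h2.1 (h1.2.1 b' hb)
      · by_cases hb : b' = b
        · subst hb
          exact absurd h1.1 (h2.2.2 a' ha)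
        · rw [if_neg ha, if_neg ha, if_neg hb, if_pos ⟨h1.1, h2.1⟩]
          norm_num
    · rw [if_neg h2, mul_zero]
      positivity
  · rw [if_neg h1, zero_mul]
    positivity

private theorem ptsum (σ : α × β → Option γ) (a : α) (b : β) (c : γ) :
    kB σ b c * kC σ c a ≤ (if σ (a, b) = some c then (1 : ℝ) else 0)
      + ∑ a', ∑ b', (if a' = a then 0 else if b' = b then 0 else
          (if σ (a', b) = some c ∧ σ (a, b') = some c then (1 : ℝ) else 0)) := by
  unfold kB kC
  rw [Finset.sum_mul_sum]
  refine (Finset.sum_le_sum fun a' _ => Finset.sum_le_sum fun b' _ => pt σ a b c a' b').trans ?_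
  apply le_of_eq
  simp only [Finset.sum_add_distrib]
  congr 1
  rw [Finset.sum_eq_single a]
  · rw [Finset.sum_eq_single b]
    · simp
    · intro b' _ hb
      simp [hb]
    · simp
  · intro a' _ ha
    simp [ha]
  · simp

theorem hKK1 : StEXJ → StKK1 := by
  intro hE α β γ _ _ _ _ _ _ ε μ y he hy a b c
  obtain ⟨h1, h2⟩ := hE (α × β) (fun _ => Option γ) (wt y) (wt_sum y)
  have hm : E y (fun σ => kB σ b c * kC σ c a) ≤ E y (fun σ =>
      (if σ (a, b) = some c then (1 : ℝ) else 0)
      + ∑ a', ∑ b', (if a' = a then 0 else if b' = b then 0 else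
          (if σ (a', b) = some c ∧ σ (a, b') = some c then (1 : ℝ) else 0))) :=
    Ex_mono (fun p v => wt_nonneg hy p v) fun σ => ptsum σ a b c
  refine hm.trans ?_
  unfold E
  rw [Ex_add, Ex_sum]
  have e1 : Ex (ι := α × β) (κ := fun _ => Option γ) (wt y)
      (fun σ => if σ (a, b) = some c then (1 : ℝ) else 0) = y a b c := by
    rw [h1 (a, b) (some c)]
    rfl
  rw [e1]
  have e2 : ∀ a' ∈ (univ : Finset α), Ex (ι := α × β) (κ := fun _ => Option γ) (wt y)
      (fun σ => ∑ b', (if a' = a then 0 else if b' = b then 0 else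
          (if σ (a', b) = some c ∧ σ (a, b') = some c then (1 : ℝ) else 0)))
      ≤ ∑ b', y a' b c * y a b' c := by
    intro a' _
    rw [Ex_sum]
    refine Finset.sum_le_sum fun b' _ => ?_
    have hnn : 0 ≤ y a' b c * y a b' c := mul_nonneg (hy.nn _ _ _) (hy.nn _ _ _)
    by_cases ha : a' = a
    · simp only [if_pos ha]
      rw [Ex_const (wt_sum y)]
      exact hnn
    · simp only [if_neg ha]
      by_cases hb : b' = b
      · simp only [if_pos hb]
        rw [Ex_const (wt_sum y)]
        exact hnn
      · simp only [if_neg hb]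
        have hne : ((a', b) : α × β) ≠ (a, b') := fun h => ha (Prod.mk.inj h).1
        rw [h2 (a', b) (a, b') (some c) (some c) hne]
        exact le_of_eq rfl
  have e3 := Finset.sum_le_sum e2
  have e4 : ∑ a', ∑ b', y a' b c * y a b' c ≤ ε ^ 2 := by
    rw [← Finset.sum_mul_sum, sq]
    exact mul_le_mul (hy.sB b c) (hy.sC c a)
      (Finset.sum_nonneg fun b' _ => hy.nn _ _ _) he
  linarith

end Pool.Agent.Helper30.IA85
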